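import Pool.Agent.N448.PC.Expo

set_option autoImplicit false

/-! # Record prime gaps at polynomials modulo `p` with periodic coefficients

Let `p` be a large prime and `t` prime to `p`, bounded by a power of `p`.  Let `f_1, ..., f_k` be
polynomials modulo `p` whose coefficients are ARBITRARY functions of `x mod t`, and let `n_i(x)` be
the least residue of `f_i(x)` modulo `p`.  If the functions are independent in the sense that no
combination `h_1 f_1 + ... + h_k f_k + c X`, `h ≠ 0`, is constant for more than `Z` of the `t`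
classes, then `x, n_1(x), ..., n_k(x)` lie at the same time in gaps between primes of the record
size for the modulus `p`, for many `x` of every box of volume at least
`(Z p + (d - 1) t √p) p ^ (k + δ)` in `[a, a + p t) × [0, p) ^ k`.

The main application are the residues of `x ^ u g ^ (v x)`: here `t` is the order of `g` modulo `p`
and `Z` is the degree in `g ^ x`.  So orders `t ≥ p ^ ε` are enough, and for a fixed base, for
example `g = 2`, the theorem applies to all primes with the exception of at most `O(X ^ ε)` primes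
below `X`.

Method: the complete exponential sums modulo `p t` are sums of complete sums modulo `p` over the
classes modulo `t`; at most `Z` of them are trivial and Weil's bound applies to the others.  The
record gaps come from the joint covering criterion of the starting library. -/

namespace Pool.Agent.Results.MP_b0c12c_nt.PeriodicCoefficients

open Polynomial Finset

/-- The record size of gaps between consecutive primes near `x`, up to a constant. -/
noncomputable def recordGap (x : ℝ) : ℝ :=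
  Real.log x * (Real.log (Real.log x)) ^ 2 * Real.log (Real.log (Real.log (Real.log x))) /
    (Real.log (Real.log (Real.log x))) ^ 2

/-- The integer `m` is a proper multiple of a prime number that is at most `z`; in particular `m`
is composite. -/
def SmallFactor (z : ℝ) (m : ℤ) : Prop :=
  ∃ q : ℕ, q.Prime ∧ (q : ℝ) ≤ z ∧ (q : ℤ) ∣ m ∧ (q : ℤ) < m

/-- The integers `x` in `[a, a + L)` for which every `n x i` is in `[c i, c i + D i)` and every
integer at distance at most `κ recordGap p` from `x` or from some `n x i` has a small factor. -/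
def Places (k p : ℕ) (κ z : ℝ) (n : ℕ → Fin k → ℕ) (a L : ℕ) (c D : Fin k → ℕ) : Set ℕ :=
  {x : ℕ | a ≤ x ∧ x < a + L ∧ (∀ i, c i ≤ n x i ∧ n x i < c i + D i) ∧
    ∀ m : ℤ, (|(m : ℝ) - x| ≤ κ * recordGap p ∨ ∃ i, |(m : ℝ) - n x i| ≤ κ * recordGap p) →
      SmallFactor z m}

/-- The least non-negative residue modulo `p` of the value at `x` of the polynomial `f (x mod t)`. -/
def residue (p t : ℕ) (f : ℕ → (ZMod p)[X]) (x : ℕ) : ℕ := ((f (x % t)).eval (x : ZMod p)).val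

theorem result :
    -- (1) polynomials with coefficients of period `t`
    (∀ (k K : ℕ) (δ : ℝ), 0 < δ → δ ≤ 1 →
      ∃ κ : ℝ, 0 < κ ∧ ∃ p₀ : ℕ, ∀ p : ℕ, p.Prime → p₀ ≤ p →
      ∀ t : ℕ, 1 ≤ t → t ≤ p ^ K → ¬ p ∣ t → ∀ d : ℕ, 1 ≤ d →
      ∀ f : Fin k → ℕ → (ZMod p)[X], (∀ i j, (f i j).natDegree ≤ d) →
      ∀ Z : ℕ, 1 ≤ Z → (∀ h : Fin k → ZMod p, h ≠ 0 → ∀ c : ZMod p,
        ((range t).filter fun j => ((∑ i, C (h i) * f i j) + C c * X).natDegree = 0).card ≤ Z) →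
      ∀ (a L : ℕ) (c D : Fin k → ℕ), L ≤ p * t → (∀ i, c i + D i ≤ p) →
      (p : ℝ) ^ δ ≤ L → (∀ i, (p : ℝ) ^ δ ≤ D i) →
      (Z * p + (d - 1) * t * Real.sqrt p) * (p : ℝ) ^ ((k : ℝ) + δ) ≤ L * ∏ i, (D i : ℝ) →
      (L * ∏ i, (D i : ℝ)) * (p : ℝ) ^ (-((k : ℝ) + δ)) ≤
        (Places k p κ ((p : ℝ) ^ δ) (fun x i => residue p t (f i) x) a L c D).ncard) ∧
    -- (2) the residues of `x ^ u * g ^ (v x)`
    (∀ (k : ℕ) (δ : ℝ), 0 < δ → δ ≤ 1 →
      ∃ κ : ℝ, 0 < κ ∧ ∃ p₀ : ℕ, ∀ p : ℕ, p.Prime → p₀ ≤ p →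
      ∀ g : ℕ, ¬ p ∣ g → ∀ d J : ℕ, 1 ≤ d → 1 ≤ J →
      ∀ u v : Fin k → ℕ, (∀ i, 1 ≤ u i) → (∀ i, u i ≤ d) → (∀ i, v i ≤ J) →
      (∀ i j, u i = u j → v i = v j → i = j) → (∀ i, ¬ (u i = 1 ∧ v i = 0)) →
      ∀ (a L : ℕ) (c D : Fin k → ℕ), L ≤ p * orderOf (g : ZMod p) → (∀ i, c i + D i ≤ p) →
      (p : ℝ) ^ δ ≤ L → (∀ i, (p : ℝ) ^ δ ≤ D i) →
      (J * p + (d - 1) * orderOf (g : ZMod p) * Real.sqrt p) * (p : ℝ) ^ ((k : ℝ) + δ) ≤
        L * ∏ i, (D i : ℝ) →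
      (L * ∏ i, (D i : ℝ)) * (p : ℝ) ^ (-((k : ℝ) + δ)) ≤
        (Places k p κ ((p : ℝ) ^ δ) (fun x i => x ^ u i * g ^ (v i * x) % p) a L c D).ncard) ∧
    -- (3) a fixed base and almost all primes
    (∀ (k : ℕ) (u v : Fin k → ℕ), (∀ i, 1 ≤ u i) →
      (∀ i j, u i = u j → v i = v j → i = j) → (∀ i, ¬ (u i = 1 ∧ v i = 0)) →
      ∀ g : ℕ, 2 ≤ g → ∀ ε : ℝ, 0 < ε → ε ≤ 1 →
      ∃ κ : ℝ, 0 < κ ∧ ∃ η : ℝ, 0 < η ∧ ∃ A : ℝ, ∀ Y : ℝ, 1 ≤ Y →
      ({p : ℕ | p.Prime ∧ (p : ℝ) ≤ Y ∧ ¬ (¬ p ∣ g ∧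
        ∀ (a L : ℕ) (c D : Fin k → ℕ), L ≤ p * orderOf (g : ZMod p) → (∀ i, c i + D i ≤ p) →
        orderOf (g : ZMod p) * (p : ℝ) ^ ((k : ℝ) + 1 - η) ≤ L * ∏ i, (D i : ℝ) →
        (L * ∏ i, (D i : ℝ)) * (p : ℝ) ^ (-((k : ℝ) + ε)) ≤
          (Places k p κ ((p : ℝ) ^ ε) (fun x i => x ^ u i * g ^ (v i * x) % p)
            a L c D).ncard)}.ncard : ℝ) ≤ A * Y ^ ε) := by
  refine ⟨fun k K δ hδ hδ1 => Pool.Agent.N448.PC.final k K δ hδ hδ1,
    fun k δ hδ hδ1 => Pool.Agent.N448.PC.expo k δ hδ hδ1, ?_⟩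
  intro k u v hu hinj h10 g hg ε hε hε1
  exact Pool.Agent.N448.PC.fixed k u v hu hinj h10 g hg ε hε hε1

end Pool.Agent.Results.MP_b0c12c_nt.PeriodicCoefficients
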